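import Mathlib
import Pool.Agent.Helper17.TranslM
import Pool.Agent.Helper91.TTT.Wiener

set_option autoImplicit false
open MeasureTheory Filter Topology
open scoped InnerProductSpace ComplexConjugate ENNReal

/-! Definitions for the accumulation theorem for exotic traces. -/

namespace Helper58.FX

/-! ### boxes, means, densities -/

/-- the square box -/
def box (N : ℕ) : Finset (ℕ × ℕ) := Finset.range N ×ˢ Finset.range N

/-- the integer `2 ^ i * 3 ^ j` -/
def sc (s : ℕ × ℕ) : ℤ := 2 ^ s.1 * 3 ^ s.2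

/-- mean over the box -/
noncomputable def mean (a : ℕ × ℕ → ℝ) (N : ℕ) : ℝ := (∑ s ∈ box N, a s) / (N : ℝ) ^ 2

open Classical in
/-- number of elements in the box -/
noncomputable def cnt (Q : Set (ℕ × ℕ)) (N : ℕ) : ℝ :=
  (((box N).filter (fun s => s ∈ Q)).card : ℝ)

/-- upper density at most `ε` -/
def Up (Q : Set (ℕ × ℕ)) (ε : ℝ) : Prop := ∀ᶠ N : ℕ in atTop, cnt Q N ≤ ε * (N : ℝ) ^ 2

/-- lower density at least `d` -/
def Low (Q : Set (ℕ × ℕ)) (d : ℝ) : Prop := ∀ᶠ N : ℕ in atTop, d * (N : ℝ) ^ 2 ≤ cnt Q N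

/-- upper density at least `d` -/
def Fre (Q : Set (ℕ × ℕ)) (d : ℝ) : Prop := ∃ᶠ N : ℕ in atTop, d * (N : ℝ) ^ 2 ≤ cnt Q N

/-! ### two commuting isometries -/

section Hilbert

variable {H : Type*} [NormedAddCommGroup H] [InnerProductSpace ℂ H]

/-- the action of pairs of natural numbers -/
noncomputable def act (U V : H →ₗᵢ[ℂ] H) (s : ℕ × ℕ) : H →ₗᵢ[ℂ] H := U ^ s.1 * V ^ s.2

/-- joint eigenspaces -/
def Eg (U V : H →ₗᵢ[ℂ] H) (α β : ℂ) : Submodule ℂ H where
  carrier := {v | U v = α • v ∧ V v = β • v}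
  add_mem' := by
    rintro a b ⟨h1, h2⟩ ⟨h3, h4⟩
    exact ⟨by rw [map_add, h1, h3, smul_add], by rw [map_add, h2, h4, smul_add]⟩
  zero_mem' := ⟨by simp, by simp⟩
  smul_mem' := by
    rintro c a ⟨h1, h2⟩
    exact ⟨by rw [map_smul, h1, smul_comm], by rw [map_smul, h2, smul_comm]⟩

lemma mem_Eg {U V : H →ₗᵢ[ℂ] H} {α β : ℂ} {v : H} :
    v ∈ Eg U V α β ↔ U v = α • v ∧ V v = β • v := Iff.rfl

lemma isClosed_Eg (U V : H →ₗᵢ[ℂ] H) (α β : ℂ) : IsClosed (Eg U V α β : Set H) := by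
  have h : (Eg U V α β : Set H) = {v | U v = α • v} ∩ {v | V v = β • v} := rfl
  rw [h]
  exact (isClosed_eq U.continuous (continuous_const_smul α)).inter
    (isClosed_eq V.continuous (continuous_const_smul β))

/-- the compact part: closed span of the joint eigenvectors -/
def Hc (U V : H →ₗᵢ[ℂ] H) : Submodule ℂ H :=
  (Submodule.span ℂ {v | ∃ α β : ℂ, v ∈ Eg U V α β}).topologicalClosure

lemma isClosed_Hc (U V : H →ₗᵢ[ℂ] H) : IsClosed (Hc U V : Set H) :=
  Submodule.isClosed_topologicalClosure _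

variable [CompleteSpace H]

instance instCompleteEg (U V : H →ₗᵢ[ℂ] H) (α β : ℂ) : CompleteSpace (Eg U V α β) :=
  (isClosed_Eg U V α β).completeSpace_coe

instance instCompleteHc (U V : H →ₗᵢ[ℂ] H) : CompleteSpace (Hc U V) :=
  (isClosed_Hc U V).completeSpace_coe

/-- orthogonal projection onto the compact part -/
noncomputable def PP (U V : H →ₗᵢ[ℂ] H) : H →L[ℂ] H := (Hc U V).starProjection

/-- orthogonal projection onto a joint eigenspace -/
noncomputable def PE (U V : H →ₗᵢ[ℂ] H) (α β : ℂ) : H →L[ℂ] H := (Eg U V α β).starProjection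

end Hilbert

/-! ### the circle -/

/-- the circle -/
abbrev Tor := AddCircle (1 : ℝ)

/-- multiplication by `n` on the circle -/
abbrev T (n : ℕ) : Tor → Tor := Helper17.TranslM.T n

/-- Fourier coefficients of a measure -/
noncomputable def ft (μ : Measure Tor) (n : ℤ) : ℂ := ∫ x, (fourier n x : ℂ) ∂μ

/-- ergodicity in terms of the Fourier coefficients -/
def Erg (f : ℤ → ℂ) : Prop := ∀ m : ℤ,
  Tendsto (fun L => Helper17.LevelSets.EE (fun j => f (m * j)) L) atTop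
    (𝓝 ((‖f m‖ ^ 2 : ℝ) : ℂ))

section Circle

variable {μ : Measure Tor}

/-- Koopman isometries -/
noncomputable def UU {n : ℕ} (h : MeasurePreserving (T n) μ μ) : Lp ℂ 2 μ →ₗᵢ[ℂ] Lp ℂ 2 μ :=
  Lp.compMeasurePreservingₗᵢ ℂ (T n) h

/-- the characters as elements of the Hilbert space -/
noncomputable def ev (μ : Measure Tor) [IsFiniteMeasure μ] (n : ℤ) : Lp ℂ 2 μ :=
  ContinuousMap.toLp (E := ℂ) 2 μ ℂ (fourier n)

lemma memLp_mul_fourier (n : ℤ) {f : Tor → ℂ} (hf : MemLp f 2 μ) :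
    MemLp (fun x => (fourier n x : ℂ) * f x) 2 μ := by
  refine hf.of_le ?_ (Filter.Eventually.of_forall (fun x => ?_))
  · exact (fourier n).continuous.aestronglyMeasurable.mul hf.1
  · rw [norm_mul, Helper91.TTT.norm_fourier_apply, one_mul]

/-- multiplication by a character -/
noncomputable def MM (μ : Measure Tor) (n : ℤ) : Lp ℂ 2 μ →ₗᵢ[ℂ] Lp ℂ 2 μ where
  toFun f := (memLp_mul_fourier n (Lp.memLp f)).toLp _
  map_add' f g := by
    rw [← MemLp.toLp_add (memLp_mul_fourier n (Lp.memLp f)) (memLp_mul_fourier n (Lp.memLp g))]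
    refine MemLp.toLp_congr _ _ ?_
    filter_upwards [Lp.coeFn_add f g] with x hx
    rw [hx, Pi.add_apply, Pi.add_apply, mul_add]
  map_smul' c f := by
    rw [RingHom.id_apply, ← MemLp.toLp_const_smul c (memLp_mul_fourier n (Lp.memLp f))]
    refine MemLp.toLp_congr _ _ ?_
    filter_upwards [Lp.coeFn_smul c f] with x hx
    rw [hx, Pi.smul_apply, Pi.smul_apply, smul_eq_mul, smul_eq_mul, mul_left_comm]
  norm_map' f := by
    show ‖(memLp_mul_fourier n (Lp.memLp f)).toLp _‖ = ‖f‖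
    rw [Lp.norm_toLp, Lp.norm_def]
    congr 1
    refine eLpNorm_congr_norm_ae (Filter.Eventually.of_forall (fun x => ?_))
    rw [norm_mul, Helper91.TTT.norm_fourier_apply, one_mul]

lemma MM_coe (n : ℤ) (f : Lp ℂ 2 μ) :
    (MM μ n f : Tor → ℂ) =ᵐ[μ] fun x => (fourier n x : ℂ) * f x :=
  MemLp.coeFn_toLp (memLp_mul_fourier n (Lp.memLp f))

/-- being represented in the compact part -/
def InC [IsProbabilityMeasure μ] (h2 : MeasurePreserving (T 2) μ μ)
    (h3 : MeasurePreserving (T 3) μ μ) (f : Tor → ℂ) : Prop :=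
  ∃ hf : MemLp f 2 μ, hf.toLp f ∈ Hc (UU h2) (UU h3)

end Circle

/-- Fourier transforms of exotic measures: invariant, ergodic, without atoms, not Lebesgue -/
structure ExLike (q : ℤ → ℂ) : Prop where
  rep : ∃ ν : Measure Tor, IsProbabilityMeasure ν ∧ (∀ n, ft ν n = q n) ∧
    MeasurePreserving (T 2) ν ν ∧ MeasurePreserving (T 3) ν ν ∧ ∀ x : Tor, ν {x} = 0
  erg : Erg q
  ne : ∃ n : ℤ, n ≠ 0 ∧ q n ≠ 0

/-- the dilates of a function -/
def dil (q : ℤ → ℂ) (k : ℤ) : ℤ → ℂ := fun n => q (k * n)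

/-- isolation of the exotic points in the closure of the dilates -/
def Iso (q : ℤ → ℂ) : Prop := ∀ p ∈ closure (Set.range fun k : ℕ => dil q ((k : ℤ) + 1)),
  ExLike p → ∃ W : Set (ℤ → ℂ), IsOpen W ∧ p ∈ W ∧ ∀ k : ℕ, dil q ((k : ℤ) + 1) ∈ W →
    dil q ((k : ℤ) + 1) = p

end Helper58.FX
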