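import Mathlib
import Pool.Agent.Helper17.LevelSetsZ

set_option autoImplicit false
open MeasureTheory Filter Topology

namespace Helper58.FX

/-- invariant normalised positive definite functions on the integers -/
structure IPD (f : ℤ → ℂ) : Prop where
  pd : Helper17.LevelSets.PDZ f
  one : f 0 = 1
  two : ∀ n, f (2 * n) = f n
  three : ∀ n, f (3 * n) = f n

end Helper58.FX
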