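import Mathlib
import Pool.Agent.Helper91.TTT.FDim
import Pool.Agent.Helper58.FX.P.Final
import Pool.Agent.Helper58.FX.St.Stubs3

set_option autoImplicit false
open MeasureTheory Filter Topology Helper17.FU Helper17.FUGroup Helper91.TTT
open scoped InnerProductSpace ComplexConjugate ENNReal ComplexOrder

/-! Isolation of the extreme traces. -/

namespace Helper58.FX
open Helper58.FX.St

variable {s2 s3 t : Equiv.Perm ℚ}

/-- conditionally finite-dimensional -/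
def FD (φ : GG s2 s3 t → ℂ) : Prop :=
  FiniteDimensional ℂ (Submodule.span ℂ {F : GG s2 s3 t → ℂ | ∃ n : GG s2 s3 t,
    IsTr n ∧ F = fun x => φ (n * x)})

/-- the regular trace -/
def Reg (φ : GG s2 s3 t → ℂ) : Prop :=
  φ = Set.indicator ({1} : Set (GG s2 s3 t)) (fun _ => (1 : ℂ))

lemma ipd_of_exlike {q : ℤ → ℂ} (hq : ExLike q) : IPD q := by
  obtain ⟨ν, hν, hft, h2, h3, -⟩ := hq.rep
  have := pdz_ft h2 h3
  have e : ft ν = q := funext hft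
  rw [e] at this
  exact ⟨this.1, this.2.1, this.2.2.1, this.2.2.2⟩

lemma exo_of_exlike (h2 : ∀ x : ℚ, s2 x = 2 * x) (h3 : ∀ x : ℚ, s3 x = 3 * x)
    (ht : ∀ x : ℚ, t x = x + 1) {τ : GG s2 s3 t} (hτ : (τ : Equiv.Perm ℚ) = t) {q : ℤ → ℂ}
    (hq : ExLike q) : ∃ ψ : GG s2 s3 t → ℂ, Exo ψ ∧ ∀ n : ℤ, ψ (τ ^ n) = q n := by
  obtain ⟨φ, hφ, hoff, hφq⟩ := zero_ext h2 h3 ht hτ (ipd_of_exlike hq)
  obtain ⟨ψ, h4, h5, h6, h7, h8⟩ := trace_limit h2 h3 ht hτ (fun _ => φ) (fun _ => hφ)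
    (fun _ => hoff) hq (fun n => by rw [hφq]; exact tendsto_const_nhds)
  exact ⟨ψ, ⟨h4, h5, h6⟩, h8⟩

/-- if there are no exotic traces, then every extreme trace is isolated on the translations -/
theorem isolated (h2 : ∀ x : ℚ, s2 x = 2 * x) (h3 : ∀ x : ℚ, s3 x = 3 * x)
    (ht : ∀ x : ℚ, t x = x + 1) {τ : GG s2 s3 t} (hτ : (τ : Equiv.Perm ℚ) = t)
    (hQ : ∀ φ : GG s2 s3 t → ℂ, ¬ Exo φ) {ψ : GG s2 s3 t → ℂ}
    (hψ : ψ ∈ Set.extremePoints ℝ (TR (GG s2 s3 t))) (hne : ¬ Reg ψ) :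
    ∃ (F : Finset (GG s2 s3 t)) (ε : ℝ), 0 < ε ∧ (∀ g ∈ F, IsTr g) ∧
      ∀ φ ∈ Set.extremePoints ℝ (TR (GG s2 s3 t)), (∀ g ∈ F, ‖φ g - ψ g‖ < ε) →
        ∀ g, IsTr g → φ g = ψ g := by
  classical
  have hno : ¬ ∃ q : ℤ → ℂ, ExLike q := by
    rintro ⟨q, hq⟩
    obtain ⟨ψ, h4, -⟩ := exo_of_exlike h2 h3 ht hτ hq
    exact hQ ψ h4
  have hfd : FD ψ := by
    by_contra h
    exact hQ ψ ⟨hψ, hne, h⟩
  obtain ⟨q, hq1, hq⟩ := fd_period h2 h3 ht hτ hψ hfd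
  have hψF : Fact (PD ψ) := ⟨hψ.1.2.2⟩
  have hψq : ∀ n : ℤ, ψ (τ ^ ((q : ℤ) * n)) = 1 := by
    intro n
    have h4 : (τ ^ (q : ℤ)) ∈ kerφ ψ hψ.1.1 := hq
    have h5 := Subgroup.zpow_mem _ h4 n
    rw [← zpow_mul] at h5
    exact h5
  by_contra hcon
  push Not at hcon
  have htr : ∀ m : ℤ, IsTr (τ ^ m) := by
    intro m
    refine ⟨m, fun x => ?_⟩
    rw [Subgroup.coe_zpow, hτ, t_zpow ht]
  have hch : ∀ i : ℕ, ∃ φ ∈ Set.extremePoints ℝ (TR (GG s2 s3 t)),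
      (∀ m : ℤ, |m| ≤ i → ‖φ (τ ^ m) - ψ (τ ^ m)‖ < 1 / ((i : ℝ) + 1)) ∧
      ∃ g, IsTr g ∧ φ g ≠ ψ g := by
    intro i
    obtain ⟨φ, hφ, hclose, g, hg, hgne⟩ := hcon
      ((Finset.Icc (-(i : ℤ)) i).image (fun m : ℤ => τ ^ m)) (1 / ((i : ℝ) + 1))
      (by positivity) (fun g hg => by
        obtain ⟨m, -, rfl⟩ := Finset.mem_image.mp hg
        exact htr m)
    refine ⟨φ, hφ, fun m hm => hclose _ (Finset.mem_image_of_mem _ ?_), g, hg, hgne⟩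
    rw [Finset.mem_Icc]
    exact abs_le.mp hm
  choose φ hφ hclose g hg hgne using hch
  have hlim : ∀ m : ℤ, Tendsto (fun i => φ i (τ ^ m)) atTop (𝓝 (ψ (τ ^ m))) := by
    intro m
    rw [tendsto_iff_norm_sub_tendsto_zero]
    refine squeeze_zero' (Eventually.of_forall fun i => norm_nonneg _) ?_
      tendsto_one_div_add_atTop_nhds_zero_nat
    filter_upwards [eventually_ge_atTop m.natAbs] with i hi
    exact (hclose i m (by rw [Int.abs_eq_natAbs]; exact_mod_cast hi)).le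
  have h1 : ∀ᶠ i in atTop, (fun n : ℤ => φ i (τ ^ ((q : ℤ) * n))) = fun _ => 1 := by
    refine eventually_one hno (fun i n => φ i (τ ^ ((q : ℤ) * n)))
      (fun i => (ipd_erg h2 h3 ht hτ (hφ i) q).1) (fun i => (ipd_erg h2 h3 ht hτ (hφ i) q).2)
      (fun n => ?_)
    have := hlim ((q : ℤ) * n)
    rw [hψq] at this
    exact this
  set S : Set (ℤ → ℂ) := {f : ℤ → ℂ | IPD f ∧ Erg f ∧ f q = 1} with hS
  have hSf : S.Finite := finite_period hq1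
  have hmem : ∀ᶠ i in atTop, (fun n : ℤ => φ i (τ ^ n)) ∈ S := by
    filter_upwards [h1] with i hi
    have h4 := ipd_erg h2 h3 ht hτ (hφ i) 1
    simp only [one_mul] at h4
    refine ⟨h4.1, h4.2, ?_⟩
    have h5 := congrFun hi 1
    simpa using h5
  have hlim' : Tendsto (fun i => fun n : ℤ => φ i (τ ^ n)) atTop (𝓝 (fun n : ℤ => ψ (τ ^ n))) :=
    tendsto_pi_nhds.mpr hlim
  have hopen : ((S \ {fun n : ℤ => ψ (τ ^ n)})ᶜ : Set (ℤ → ℂ)) ∈ 𝓝 (fun n : ℤ => ψ (τ ^ n)) :=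
    (hSf.subset Set.diff_subset).isClosed.isOpen_compl.mem_nhds (by simp)
  have hev := (hlim'.eventually hopen).and hmem
  obtain ⟨i, hi1, hi2⟩ := hev.exists
  have heq : (fun n : ℤ => φ i (τ ^ n)) = fun n : ℤ => ψ (τ ^ n) := by
    by_contra hne'
    exact hi1 ⟨hi2, hne'⟩
  obtain ⟨m, σ, hσ, -⟩ := trans_conj' h2 h3 ht hτ (g i) (hg i)
  apply hgne i
  rw [hσ, (hφ i).1.2.1, hψ.1.2.1]
  exact congrFun heq m

/-- conversely, isolation excludes exotic traces -/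
theorem no_exo_of_isolated (h2 : ∀ x : ℚ, s2 x = 2 * x) (h3 : ∀ x : ℚ, s3 x = 3 * x)
    (ht : ∀ x : ℚ, t x = x + 1) {τ : GG s2 s3 t} (hτ : (τ : Equiv.Perm ℚ) = t)
    {θ : ℕ → (GG s2 s3 t →* GG s2 s3 t)} (hθτ : ∀ q : ℕ, 1 ≤ q → θ q τ = τ ^ (q : ℤ))
    (hθtr : ∀ q : ℕ, 1 ≤ q → ∀ g : GG s2 s3 t, ¬ IsTr g → ¬ IsTr (θ q g))
    (hI : ∀ ψ : GG s2 s3 t → ℂ, Exo ψ → ∃ (F : Finset (GG s2 s3 t)) (ε : ℝ), 0 < ε ∧
      ∀ φ : GG s2 s3 t → ℂ, Exo φ → (∀ g ∈ F, ‖φ g - ψ g‖ < ε) →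
        ∀ g, IsTr g → φ g = ψ g) :
    ∀ φ : GG s2 s3 t → ℂ, ¬ Exo φ := by
  intro φ hφ
  obtain ⟨ψ, hψ, m, hm, hinj, hlim⟩ := accum h2 h3 ht hτ hθτ hθtr hφ
  have hpe : ∀ i, Exo (fun g => φ (θ (m i) g)) := fun i =>
    pullback h2 h3 ht hτ hφ.1 hφ.2.1 hφ.2.2 (θ (m i)) (q := ((m i : ℕ) : ℤ))
      (by have := hm i; omega) (hθτ _ (hm i))
  obtain ⟨F, ε, hε, hF⟩ := hI ψ hψ
  have hev : ∀ᶠ i in atTop, ∀ g ∈ F, ‖φ (θ (m i) g) - ψ g‖ < ε := by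
    rw [Filter.eventually_all_finset]
    intro g _
    have := (tendsto_iff_norm_sub_tendsto_zero.mp (hlim g)).eventually (gt_mem_nhds hε)
    exact this
  obtain ⟨N, hN⟩ := eventually_atTop.mp hev
  have heq : ∀ i, N ≤ i → (fun g => φ (θ (m i) g)) = ψ := by
    intro i hi
    refine exo_ext h2 h3 ht hτ (hpe i) hψ (fun n => ?_)
    refine hF _ (hpe i) (hN i hi) _ ⟨n, fun x => ?_⟩
    rw [Subgroup.coe_zpow, hτ, t_zpow ht]
  have h5 := hinj ((heq N le_rfl).trans (heq (N + 1) (by omega)).symm)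
  omega

end Helper58.FX
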