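import Mathlib
import Pool.Agent.Helper58.FX.Defs
import Pool.Agent.Helper58.FX.St.Stubs

set_option autoImplicit false
open MeasureTheory Filter Topology Helper17.LevelSets
open scoped InnerProductSpace ComplexConjugate ENNReal

/-! The main inequality. -/

namespace Helper58.FX.MI
open Helper58.FX Helper58.FX.St

variable {H : Type*} [NormedAddCommGroup H] [InnerProductSpace ℂ H]
  {U V : H →ₗᵢ[ℂ] H}

/-- doubling -/
def db (s : ℕ × ℕ) : ℕ × ℕ := (s.1 + s.1, s.2 + s.2)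

lemma sc_db (s : ℕ × ℕ) : sc (db s) = sc s * sc s := by
  unfold sc db; ring

lemma act_db (hUV : Commute U V) (s : ℕ × ℕ) (v : H) :
    act U V (db s) v = act U V s (act U V s v) := by
  have h : act U V (db s) = act U V s * act U V s := by
    unfold act db
    rw [pow_add, pow_add]
    have h1 : Commute (U ^ s.1) (V ^ s.2) := hUV.pow_pow _ _
    calc U ^ s.1 * U ^ s.1 * (V ^ s.2 * V ^ s.2) = U ^ s.1 * (U ^ s.1 * V ^ s.2) * V ^ s.2 := by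
          simp only [mul_assoc]
      _ = U ^ s.1 * (V ^ s.2 * U ^ s.1) * V ^ s.2 := by rw [h1.eq]
      _ = _ := by simp only [mul_assoc]
  rw [h]; rfl

lemma act_fix {v : H} (hU : U v = v) (hV : V v = v) (s : ℕ × ℕ) : act U V s v = v := by
  have h1 : ∀ (W : H →ₗᵢ[ℂ] H), W v = v → ∀ n : ℕ, (W ^ n) v = v := by
    intro W hW n
    induction n with
    | zero => rfl
    | succ n ih => rw [pow_succ]; show (W ^ n) (W v) = v; rw [hW, ih]
  show (U ^ s.1) ((V ^ s.2) v) = v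
  rw [h1 V hV, h1 U hU]

section M

variable {M : ℤ → (H →ₗᵢ[ℂ] H)}

lemma M_M (hMadd : ∀ a b, M (a + b) = M a * M b) (a b : ℤ) (x : H) :
    M a (M b x) = M (a + b) x := by rw [hMadd]; rfl

lemma inner_M (hM0 : M 0 = 1) (hMadd : ∀ a b, M (a + b) = M a * M b) (n : ℤ) (x y : H) :
    ⟪M n x, y⟫_ℂ = ⟪x, M (-n) y⟫_ℂ := by
  rw [← (M (-n)).inner_map_map (M n x) y, M_M hMadd, neg_add_cancel, hM0]
  rfl

lemma inner_MM (hMadd : ∀ a b, M (a + b) = M a * M b) (a b : ℤ) (x y : H) :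
    ⟪M a x, M b y⟫_ℂ = ⟪x, M (b - a) y⟫_ℂ := by
  have h : M b y = M a (M (b - a) y) := by rw [M_M hMadd]; congr 2; ring
  rw [h, (M a).inner_map_map]

lemma act_M (hact : ∀ s n, act U V s * M n = M (sc s * n) * act U V s) {one : H}
    (hU1 : U one = one) (hV1 : V one = one) (s : ℕ × ℕ) (n : ℤ) :
    act U V s (M n one) = M (sc s * n) one := by
  have h : act U V s (M n one) = (act U V s * M n) one := rfl
  rw [h, hact]
  show M (sc s * n) (act U V s one) = _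
  rw [act_fix hU1 hV1]

end M

variable [CompleteSpace H]

lemma PP_mem (v : H) : PP U V v ∈ Hc U V := Submodule.starProjection_apply_mem _ _

lemma sub_PP_mem (v : H) : v - PP U V v ∈ (Hc U V)ᗮ :=
  Submodule.sub_starProjection_mem_orthogonal v

lemma inner_PP {u v : H} (hv : v ∈ Hc U V) : ⟪u, v⟫_ℂ = ⟪PP U V u, v⟫_ℂ := by
  have h := Submodule.starProjection_inner_eq_zero (K := Hc U V) u v hv
  rw [inner_sub_left, sub_eq_zero] at h
  exact h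

lemma norm_PP_le (v : H) : ‖PP U V v‖ ≤ ‖v‖ := Submodule.norm_starProjection_apply_le _ v

lemma norm_PE_sq (α β : ℂ) (v : H) : ((‖PE U V α β v‖ ^ 2 : ℝ) : ℂ) = ⟪v, PE U V α β v⟫_ℂ := by
  have h := Submodule.starProjection_inner_eq_zero (K := Eg U V α β) v (PE U V α β v)
    (Submodule.starProjection_apply_mem _ _)
  rw [inner_sub_left, sub_eq_zero] at h
  have h2 : (Eg U V α β).starProjection v = PE U V α β v := rfl
  rw [h2] at h
  rw [h, inner_self_eq_norm_sq_to_K]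
  push_cast; rfl

/-- small mean squares of the eigencomponents -/
lemma mean_PE (hUV : Commute U V) {M : ℤ → (H →ₗᵢ[ℂ] H)} (hM0 : M 0 = 1)
    (hMadd : ∀ a b, M (a + b) = M a * M b) (α β : ℂ) [FiniteDimensional ℂ (Eg U V α β)]
    {w : H} (hw : w ∈ (Hc U V)ᗮ) (n : ℤ) :
    Tendsto (mean (fun s => ‖PE U V α β (M (-n) (act U V s w))‖ ^ 2)) atTop (𝓝 0) := by
  set b := stdOrthonormalBasis ℂ (Eg U V α β) with hb
  have h1 : ∀ x : H, ‖PE U V α β x‖ ^ 2 = ∑ i, ‖⟪((b i : Eg U V α β) : H), x⟫_ℂ‖ ^ 2 := by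
    intro x
    have h2 : PE U V α β x = (((Eg U V α β).orthogonalProjectionOnto x : Eg U V α β) : H) := rfl
    rw [h2, Submodule.norm_coe, ← b.sum_sq_norm_inner_right]
    refine Finset.sum_congr rfl (fun i _ => ?_)
    rw [Submodule.coe_inner]
    congr 2
    have h3 := Submodule.starProjection_inner_eq_zero (K := Eg U V α β) x (b i : H) (b i).2
    rw [← inner_conj_symm, map_eq_zero, inner_sub_right, sub_eq_zero] at h3
    exact h3.symm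
  have h2 : ∀ N : ℕ, mean (fun s => ‖PE U V α β (M (-n) (act U V s w))‖ ^ 2) N =
      ∑ i, mean (fun s => ‖⟪M n ((b i : Eg U V α β) : H), act U V s w⟫_ℂ‖ ^ 2) N := by
    intro N
    unfold mean
    rw [← Finset.sum_div, Finset.sum_comm]
    congr 1
    refine Finset.sum_congr rfl (fun s _ => ?_)
    refine (h1 _).trans (Finset.sum_congr rfl (fun i _ => ?_))
    rw [inner_M hM0 hMadd]
  have h3 : (fun N : ℕ => mean (fun s => ‖PE U V α β (M (-n) (act U V s w))‖ ^ 2) N) =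
      fun N => ∑ i, mean (fun s => ‖⟪M n ((b i : Eg U V α β) : H), act U V s w⟫_ℂ‖ ^ 2) N :=
    funext h2
  show Tendsto (fun N : ℕ => mean _ N) atTop (𝓝 0)
  rw [h3, ← Finset.sum_const_zero (s := (Finset.univ : Finset (Fin (Module.finrank ℂ (Eg U V α β)))))]
  exact tendsto_finsetSum _ (fun i _ => weak_mixing hUV hw _)

/-- the eigencomponents are determined by the correlation function -/
lemma PE_eq (hUV : Commute U V) {α β : ℂ} (hα : ‖α‖ = 1) (hβ : ‖β‖ = 1) {v v' : H}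
    (h : ∀ t : ℕ × ℕ, ⟪v, act U V t v⟫_ℂ = ⟪v', act U V t v'⟫_ℂ) :
    ‖PE U V α β v‖ ^ 2 = ‖PE U V α β v'‖ ^ 2 := by
  have hlim : ∀ u : H, Tendsto (fun N : ℕ => ((N : ℂ) ^ 2)⁻¹ *
      ∑ s ∈ box N, ((conj α) ^ s.1 * (conj β) ^ s.2) * ⟪u, act U V s u⟫_ℂ) atTop
      (𝓝 ((‖PE U V α β u‖ ^ 2 : ℝ) : ℂ)) := by
    intro u
    have h1 := (mean_ergodic hUV hα hβ u)
    have h2 := (Filter.Tendsto.inner (𝕜 := ℂ) (tendsto_const_nhds (x := u)) h1)
    rw [← norm_PE_sq] at h2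
    refine h2.congr (fun N => ?_)
    rw [inner_smul_right, inner_sum]
    congr 1
    exact Finset.sum_congr rfl (fun s _ => by rw [inner_smul_right])
  have h1 := hlim v
  have h2 := hlim v'
  simp only [h] at h1
  have h3 := tendsto_nhds_unique h1 h2
  exact_mod_cast h3

/-- the key inequality at scale `δ` -/
theorem key (hUV : Commute U V) (M : ℤ → (H →ₗᵢ[ℂ] H)) (hM0 : M 0 = 1)
    (hMadd : ∀ a b, M (a + b) = M a * M b)
    (hact : ∀ s n, act U V s * M n = M (sc s * n) * act U V s)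
    (one : H) (h1 : ‖one‖ = 1) (hU1 : U one = one) (hV1 : V one = one)
    (hfd : ∀ α β : ℂ, FiniteDimensional ℂ (Eg U V α β))
    (hsym : ∀ m : ℤ, ‖PP U V (M (-m) one)‖ = ‖PP U V (M m one)‖) (n : ℤ)
    (hcl : ∀ r : ℝ, 0 < r → ∀ ε : ℝ, 0 < ε → ∃ C : Set (ℤ → ℂ), C.Finite ∧
      Up {s | (fun k : ℤ => ⟪one, M (k * (sc s - 1)) one⟫_ℂ) ∉ C ∧
        r ≤ ‖⟪one, M (n * (sc s - 1)) one⟫_ℂ‖} ε) {δ : ℝ} (hδ : 0 < δ) (hδ1 : δ ≤ 1)
    (hδf : 6 * δ < ‖PP U V (M n one)‖ ^ 2) :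
    ‖PP U V (M n one)‖ ^ 2 ≤ 7 * δ + (1 + δ) * (‖PP U V (M (-n) (PP U V (M n one)))‖ + δ) ^ 2 := by
  set e : ℤ → H := fun k => M k one with he
  set f : H := PP U V (e n) with hf
  set w : H := e n - f with hw
  have hfm : f ∈ Hc U V := PP_mem _
  have hwm : w ∈ (Hc U V)ᗮ := sub_PP_mem _
  have hen : ∀ k, ‖e k‖ = 1 := fun k => by rw [he]; simp [h1]
  have hf1 : ‖f‖ ≤ 1 := (norm_PP_le _).trans (hen n).le
  have hwe : e n = f + w := by rw [hw]; abel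
  -- the correlation functions
  set p : ℕ × ℕ → ℤ → ℂ := fun s k => ⟪one, M (k * (sc s - 1)) one⟫_ℂ with hp
  have hpe : ∀ (s : ℕ × ℕ) (k : ℤ), p s k = ⟪e k, act U V s (e k)⟫_ℂ := by
    intro s k
    rw [hp, he]
    show _ = ⟪M k one, act U V s (M k one)⟫_ℂ
    rw [act_M hact hU1 hV1, inner_MM hMadd, show sc s * k - k = k * (sc s - 1) by ring]
  have hpp : ∀ (s t : ℕ × ℕ) (k : ℤ), p t (k * (sc s - 1)) = p s (k * (sc t - 1)) := by
    intro s t k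
    rw [hp]
    show ⟪one, M (k * (sc s - 1) * (sc t - 1)) one⟫_ℂ = ⟪one, M (k * (sc t - 1) * (sc s - 1)) one⟫_ℂ
    congr 3; ring
  have hdecomp : ∀ s : ℕ × ℕ, ‖act U V s f - f‖ ≤ 2 * δ → ‖⟪e n, act U V s w⟫_ℂ‖ < δ →
      ‖p s n - ((‖f‖ ^ 2 : ℝ) : ℂ)‖ ≤ 3 * δ := by
    intro s hs1 hs2
    have h3 : p s n = ⟪f, act U V s f⟫_ℂ + ⟪e n, act U V s w⟫_ℂ := by
      rw [hpe]
      conv_lhs => rw [hwe, map_add, inner_add_right]
      rw [← hwe]
      rw [← inner_PP (St.act_mem_Hc hUV s hfm)]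
    have h4 : ((‖f‖ ^ 2 : ℝ) : ℂ) = ⟪f, f⟫_ℂ := by
      rw [inner_self_eq_norm_sq_to_K]; push_cast; rfl
    rw [h3, h4, show ⟪f, act U V s f⟫_ℂ + ⟪e n, act U V s w⟫_ℂ - ⟪f, f⟫_ℂ =
      ⟪f, act U V s f - f⟫_ℂ + ⟪e n, act U V s w⟫_ℂ by rw [inner_sub_right]; ring]
    refine (norm_add_le _ _).trans ?_
    have h5 := norm_inner_le_norm (𝕜 := ℂ) f (act U V s f - f)
    have h6 : ‖f‖ * ‖act U V s f - f‖ ≤ 1 * (2 * δ) :=
      mul_le_mul hf1 hs1 (norm_nonneg _) zero_le_one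
    linarith
  -- densities
  obtain ⟨d, hd, hlow⟩ := bohr hUV hfm hδ
  have hmix := weak_mixing hUV hwm (e n)
  have hG1 : Up {s : ℕ × ℕ | δ ^ 2 ≤ ‖⟪e n, act U V s w⟫_ℂ‖ ^ 2} (d / 16) :=
    up_of_mean (fun s => by positivity) hmix (by positivity) (by positivity)
  have hG2 := up_double hG1
  obtain ⟨C, hC, hE1⟩ := hcl (‖f‖ ^ 2 / 2) (by
    have : 0 < ‖f‖ ^ 2 := lt_of_le_of_lt (by positivity) hδf
    linarith) (d / 16) (by positivity)
  have hE2 := up_double hE1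
  have hbig := low_diff hlow (up_union (up_union hG1 hG2) (up_union hE1 hE2))
  set Q0 : Set (ℕ × ℕ) := _ \ _ with hQ0
  have hQ0' : ∀ s ∈ Q0, ‖act U V s f - f‖ ≤ δ ∧ ‖p s n - ((‖f‖ ^ 2 : ℝ) : ℂ)‖ ≤ 3 * δ ∧
      ‖p (db s) n - ((‖f‖ ^ 2 : ℝ) : ℂ)‖ ≤ 3 * δ ∧ p s ∈ C ∧ p (db s) ∈ C := by
    intro s hs
    obtain ⟨hs1, hs2⟩ := hs
    simp only [Set.mem_union, Set.mem_ofPred_eq, not_or, not_le] at hs1 hs2
    obtain ⟨⟨ha, hb⟩, hc, hd'⟩ := hs2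
    have ha' : ‖⟪e n, act U V s w⟫_ℂ‖ < δ := lt_of_pow_lt_pow_left₀ 2 hδ.le ha
    have hb' : ‖⟪e n, act U V (db s) w⟫_ℂ‖ < δ := lt_of_pow_lt_pow_left₀ 2 hδ.le hb
    have hs3 : ‖act U V (db s) f - f‖ ≤ 2 * δ := by
      rw [act_db hUV]
      calc ‖act U V s (act U V s f) - f‖ = ‖act U V s (act U V s f - f) + (act U V s f - f)‖ := by
            rw [map_sub]; congr 1; abel
        _ ≤ ‖act U V s (act U V s f - f)‖ + ‖act U V s f - f‖ := norm_add_le _ _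
        _ = ‖act U V s f - f‖ + ‖act U V s f - f‖ := by rw [(act U V s).norm_map]
        _ ≤ 2 * δ := by linarith
    have hp1 := hdecomp s (by linarith) ha'
    have hp2 := hdecomp (db s) hs3 hb'
    have hlarge : ∀ z : ℂ, ‖z - ((‖f‖ ^ 2 : ℝ) : ℂ)‖ ≤ 3 * δ → ‖f‖ ^ 2 / 2 ≤ ‖z‖ := by
      intro z hz
      have h5 : ‖((‖f‖ ^ 2 : ℝ) : ℂ)‖ = ‖f‖ ^ 2 := by
        rw [Complex.norm_real, Real.norm_eq_abs, abs_of_nonneg (by positivity)]
      have h6 := norm_sub_norm_le ((‖f‖ ^ 2 : ℝ) : ℂ) z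
      rw [h5, norm_sub_rev] at h6
      linarith
    refine ⟨hs1, hp1, hp2, ?_, ?_⟩
    · by_contra hcon
      exact hc ⟨hcon, hlarge _ hp1⟩
    · by_contra hcon
      exact hd' ⟨hcon, hlarge _ hp2⟩
  have hdpos : 0 < d - (d / 16 + 4 * (d / 16) + (d / 16 + 4 * (d / 16))) := by linarith
  obtain ⟨⟨c, c'⟩, -, d', hd', hQ⟩ := pigeon (hC.prod hC) (fun s => (p s, p (db s)))
    (fun s hs => ⟨(hQ0' s hs).2.2.2.1, (hQ0' s hs).2.2.2.2⟩) hdpos hbig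
  set Q : Set (ℕ × ℕ) := {s | s ∈ Q0 ∧ (p s, p (db s)) = (c, c')} with hQdef
  have hQc : ∀ s ∈ Q, p s = c := fun s hs => (Prod.ext_iff.mp hs.2).1
  have hQc' : ∀ s ∈ Q, p (db s) = c' := fun s hs => (Prod.ext_iff.mp hs.2).2
  obtain ⟨s0, hs0, -⟩ := mean_pick (a := fun _ => 0) (fun _ => le_rfl)
    (by
      have : mean (fun _ => 0) = fun _ => (0 : ℝ) := by funext N; simp [mean]
      rw [this]; exact tendsto_const_nhds) hd' hQ one_pos
  set m : ℤ := n * (sc s0 - 1) with hm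
  set q : ℝ := ‖PP U V (e m)‖ ^ 2 with hq
  -- lower bound
  have hlower : ‖f‖ ^ 2 - 4 * δ ≤ q := by
    set wm : H := e m - PP U V (e m) with hwm'
    obtain ⟨s, hs, hsm⟩ := mean_pick (fun s => by positivity)
      (weak_mixing hUV (sub_PP_mem (U := U) (V := V) (e m)) (e (-m))) hd' hQ
      (show 0 < δ ^ 2 by positivity)
    have hsm' : ‖⟪e (-m), act U V s wm⟫_ℂ‖ < δ := lt_of_pow_lt_pow_left₀ 2 hδ.le hsm
    have h3 : p (db s) n = ⟪e (-m), act U V s (e m)⟫_ℂ := by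
      have h4 : p (db s) n = p s (n * (sc s + 1)) := by
        rw [hp]
        show ⟪one, M (n * (sc (db s) - 1)) one⟫_ℂ = ⟪one, M (n * (sc s + 1) * (sc s - 1)) one⟫_ℂ
        rw [sc_db]
        congr 3; ring
      rw [h4, hQc s hs, ← hQc s0 hs0, he]
      show ⟪one, M (n * (sc s + 1) * (sc s0 - 1)) one⟫_ℂ = ⟪M (-m) one, act U V s (M m one)⟫_ℂ
      rw [act_M hact hU1 hV1, inner_MM hMadd]
      congr 3
      rw [hm]; ring
    have h4 := (hQ0' s hs.1).2.2.1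
    have h5 : ‖p (db s) n‖ ≤ q + δ := by
      rw [h3]
      have h6 : e m = PP U V (e m) + wm := by rw [hwm']; abel
      conv_lhs => rw [h6, map_add, inner_add_right]
      refine (norm_add_le _ _).trans (add_le_add ?_ hsm'.le)
      rw [inner_PP (St.act_mem_Hc hUV s (PP_mem (e m)))]
      refine (norm_inner_le_norm _ _).trans ?_
      rw [(act U V s).norm_map, hq, sq]
      have h7 : ‖PP U V (e (-m))‖ = ‖PP U V (e m)‖ := hsym m
      rw [h7]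
    have h8 : ‖((‖f‖ ^ 2 : ℝ) : ℂ)‖ = ‖f‖ ^ 2 := by
      rw [Complex.norm_real, Real.norm_eq_abs, abs_of_nonneg (by positivity)]
    have h9 := norm_sub_norm_le ((‖f‖ ^ 2 : ℝ) : ℂ) (p (db s) n)
    rw [h8, norm_sub_rev] at h9
    linarith
  -- upper bound
  obtain ⟨Λ, hΛ1, hΛ⟩ := approx_PE (U := U) (V := V) (e m) hδ
  have hmeanΛ : Tendsto (mean (fun s => ∑ l ∈ Λ, ‖PE U V l.1 l.2 (M (-n) (act U V s w))‖ ^ 2))
      atTop (𝓝 0) := by
    have h3 : mean (fun s => ∑ l ∈ Λ, ‖PE U V l.1 l.2 (M (-n) (act U V s w))‖ ^ 2) =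
        fun N => ∑ l ∈ Λ, mean (fun s => ‖PE U V l.1 l.2 (M (-n) (act U V s w))‖ ^ 2) N := by
      funext N
      unfold mean
      rw [← Finset.sum_div, Finset.sum_comm]
    rw [h3, ← Finset.sum_const_zero (s := Λ)]
    refine tendsto_finsetSum _ (fun l _ => ?_)
    have := hfd l.1 l.2
    exact mean_PE hUV hM0 hMadd l.1 l.2 hwm n
  obtain ⟨s, hs, hsm⟩ := mean_pick (fun s => Finset.sum_nonneg (fun l _ => by positivity)) hmeanΛ
    hd' hQ (show 0 < δ ^ 2 by positivity)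
  have hsame : ∀ l ∈ Λ, ‖PE U V l.1 l.2 (e m)‖ ^ 2 = ‖PE U V l.1 l.2 (e (n * (sc s - 1)))‖ ^ 2 := by
    intro l hl
    refine PE_eq hUV (hΛ1 l hl).1 (hΛ1 l hl).2 (fun t => ?_)
    rw [← hpe, ← hpe, hm, hpp s0 t n, hpp s t n, hQc s0 hs0, hQc s hs]
  have hsplit : e (n * (sc s - 1)) = M (-n) (act U V s f) + M (-n) (act U V s w) := by
    rw [← map_add, ← map_add, ← hwe]
    show M (n * (sc s - 1)) one = M (-n) (act U V s (M n one))
    rw [act_M hact hU1 hV1, M_M hMadd]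
    congr 2; ring
  have hsum : ∑ l ∈ Λ, ‖PE U V l.1 l.2 (e m)‖ ^ 2 ≤
      (1 + δ) * ‖PP U V (M (-n) (act U V s f))‖ ^ 2 + (1 + δ⁻¹) * δ ^ 2 := by
    have h3 : ∀ a b : H, ‖a + b‖ ^ 2 ≤ (1 + δ) * ‖a‖ ^ 2 + (1 + δ⁻¹) * ‖b‖ ^ 2 := by
      intro a b
      have h4 : ‖a + b‖ ^ 2 ≤ (‖a‖ + ‖b‖) ^ 2 := pow_le_pow_left₀ (norm_nonneg _) (norm_add_le _ _) 2
      have h5 : 2 * (‖a‖ * ‖b‖) ≤ δ * ‖a‖ ^ 2 + δ⁻¹ * ‖b‖ ^ 2 := by
        have h6 : 0 ≤ δ⁻¹ * (δ * ‖a‖ - ‖b‖) ^ 2 := by positivity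
        have h7 : δ⁻¹ * (δ * ‖a‖ - ‖b‖) ^ 2 =
            δ * ‖a‖ ^ 2 + δ⁻¹ * ‖b‖ ^ 2 - 2 * (‖a‖ * ‖b‖) := by
          field_simp
          ring
        linarith
      nlinarith
    calc ∑ l ∈ Λ, ‖PE U V l.1 l.2 (e m)‖ ^ 2
        = ∑ l ∈ Λ, ‖PE U V l.1 l.2 (M (-n) (act U V s f)) +
            PE U V l.1 l.2 (M (-n) (act U V s w))‖ ^ 2 := by
          refine Finset.sum_congr rfl (fun l hl => ?_)
          rw [hsame l hl, hsplit, map_add]
      _ ≤ ∑ l ∈ Λ, ((1 + δ) * ‖PE U V l.1 l.2 (M (-n) (act U V s f))‖ ^ 2 +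
            (1 + δ⁻¹) * ‖PE U V l.1 l.2 (M (-n) (act U V s w))‖ ^ 2) :=
          Finset.sum_le_sum (fun l _ => h3 _ _)
      _ = (1 + δ) * ∑ l ∈ Λ, ‖PE U V l.1 l.2 (M (-n) (act U V s f))‖ ^ 2 +
            (1 + δ⁻¹) * ∑ l ∈ Λ, ‖PE U V l.1 l.2 (M (-n) (act U V s w))‖ ^ 2 := by
          rw [Finset.sum_add_distrib, Finset.mul_sum, Finset.mul_sum]
      _ ≤ _ := by
          refine add_le_add (mul_le_mul_of_nonneg_left (bessel_PE _ _) (by positivity))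
            (mul_le_mul_of_nonneg_left hsm.le (by positivity))
  have hPf : ‖PP U V (M (-n) (act U V s f))‖ ≤ ‖PP U V (M (-n) f)‖ + δ := by
    have h3 : PP U V (M (-n) (act U V s f)) = PP U V (M (-n) f) +
        PP U V (M (-n) (act U V s f - f)) := by
      rw [← map_add, ← map_add]; congr 2; abel
    rw [h3]
    refine (norm_add_le _ _).trans (add_le_add_right ?_ _)
    refine (norm_PP_le _).trans ?_
    rw [(M (-n)).norm_map]
    exact (hQ0' s hs.1).1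
  have h4 : (1 + δ⁻¹) * δ ^ 2 ≤ 2 * δ := by
    have : (1 + δ⁻¹) * δ ^ 2 = δ ^ 2 + δ := by field_simp
    nlinarith
  have h5 : (1 + δ) * ‖PP U V (M (-n) (act U V s f))‖ ^ 2 ≤
      (1 + δ) * (‖PP U V (M (-n) f)‖ + δ) ^ 2 :=
    mul_le_mul_of_nonneg_left (pow_le_pow_left₀ (norm_nonneg _) hPf 2) (by positivity)
  linarith

/-- FX-8 -/
theorem main_ineq (hUV : Commute U V) (M : ℤ → (H →ₗᵢ[ℂ] H)) (hM0 : M 0 = 1)
    (hMadd : ∀ a b, M (a + b) = M a * M b)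
    (hact : ∀ s n, act U V s * M n = M (sc s * n) * act U V s)
    (one : H) (h1 : ‖one‖ = 1) (hU1 : U one = one) (hV1 : V one = one)
    (hfd : ∀ α β : ℂ, FiniteDimensional ℂ (Eg U V α β))
    (hsym : ∀ m : ℤ, ‖PP U V (M (-m) one)‖ = ‖PP U V (M m one)‖) (n : ℤ)
    (hcl : ∀ r : ℝ, 0 < r → ∀ ε : ℝ, 0 < ε → ∃ C : Set (ℤ → ℂ), C.Finite ∧
      Up {s | (fun k : ℤ => ⟪one, M (k * (sc s - 1)) one⟫_ℂ) ∉ C ∧
        r ≤ ‖⟪one, M (n * (sc s - 1)) one⟫_ℂ‖} ε) :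
    M (-n) (PP U V (M n one)) ∈ Hc U V := by
  set f : H := PP U V (M n one) with hf
  by_cases hf0 : f = 0
  · rw [hf0, map_zero]; exact (Hc U V).zero_mem
  have hfpos : 0 < ‖f‖ ^ 2 := by positivity
  set a : ℝ := ‖PP U V (M (-n) f)‖ with ha
  have hlim : Tendsto (fun δ : ℝ => 7 * δ + (1 + δ) * (a + δ) ^ 2) (𝓝[>] 0) (𝓝 (a ^ 2)) := by
    have : Tendsto (fun δ : ℝ => 7 * δ + (1 + δ) * (a + δ) ^ 2) (𝓝 0)
        (𝓝 (7 * 0 + (1 + 0) * (a + 0) ^ 2)) := by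
      apply Continuous.tendsto
      fun_prop
    simp only [mul_zero, add_zero, one_mul, zero_add] at this
    exact this.mono_left nhdsWithin_le_nhds
  have hle : ‖f‖ ^ 2 ≤ a ^ 2 := by
    refine ge_of_tendsto hlim ?_
    have h3 : ∀ᶠ δ : ℝ in 𝓝[>] 0, 0 < δ := eventually_mem_nhdsWithin
    have h4 : ∀ᶠ δ : ℝ in 𝓝[>] 0, δ < min 1 (‖f‖ ^ 2 / 6) :=
      (eventually_lt_nhds (by positivity)).filter_mono nhdsWithin_le_nhds
    filter_upwards [h3, h4] with δ hδ hδ'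
    have h5 := hδ'.le.trans (min_le_left _ _)
    have h6 := lt_of_lt_of_le hδ' (min_le_right _ _)
    exact key hUV M hM0 hMadd hact one h1 hU1 hV1 hfd hsym n hcl hδ h5 (by
      show 6 * δ < ‖f‖ ^ 2
      linarith)
  have h7 : ‖M (-n) f‖ ≤ a := by
    rw [(M (-n)).norm_map]
    exact (pow_le_pow_iff_left₀ (norm_nonneg _) (norm_nonneg _) two_ne_zero).mp hle
  rw [Submodule.mem_iff_norm_starProjection]
  exact le_antisymm (Submodule.norm_starProjection_apply_le _ _) h7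

end Helper58.FX.MI
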